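import Pool.Agent.Helper34.BIC.Merge
import Pool.Agent.Helper34.BIC.Link

/-!
# Isoperimetry of the grid in rank form

If `(A, S \ A)` is a separation of order `≤ j` of a bicircular matroid of an `n × n` grid, then one
of the two sides lives on at most `4 (j + 1)` rows and `4 (j + 1)` columns.
-/

open Set

namespace BIC

variable {α V : Type*}

/-- The grid structure on `S`: `hE i j` joins `p i j` and `p i (j+1)`, `vE i j` joins `p i j` and
`p (i+1) j`. -/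
structure IsGrid (S : Set α) (ends : α → Sym2 V) (n : ℕ) (p : ℕ → ℕ → V) (hE vE : ℕ → ℕ → α) :
    Prop where
  inj : ∀ {i j i' j' : ℕ}, i < n → j < n → i' < n → j' < n → p i j = p i' j' → i = i' ∧ j = j'
  hmem : ∀ {i j : ℕ}, i < n → j + 1 < n → hE i j ∈ S ∧ ends (hE i j) = s(p i j, p i (j + 1))
  vmem : ∀ {i j : ℕ}, i + 1 < n → j < n → vE i j ∈ S ∧ ends (vE i j) = s(p i j, p (i + 1) j)
  cover : ∀ e ∈ S, (∃ i j, i < n ∧ j + 1 < n ∧ e = hE i j) ∨ (∃ i j, i + 1 < n ∧ j < n ∧ e = vE i j)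

section lower

variable {M : Matroid α} [M.Finite] {S : Set α} {ends : α → Sym2 V}

/-- rank lower bound from an injective choice of edges -/
lemma rk_ge_card (hB : Bic M S ends) {X : Set α} (hX : X ⊆ S) {U : Finset (ℕ × ℕ)}
    {p : ℕ × ℕ → V} (hp : InjOn p U) {g : ℕ × ℕ → α} (hg : InjOn g U)
    (h : ∀ u ∈ U, g u ∈ X ∧ p u ∈ ends (g u)) : U.card ≤ rk M X := by
  classical
  have hF : g '' (U : Set (ℕ × ℕ)) ⊆ X := by
    rintro _ ⟨u, hu, rfl⟩
    exact (h u hu).1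
  have hind : M.Indep (g '' (U : Set (ℕ × ℕ))) := by
    refine hB.ind _ (fun e => p (Function.invFunOn g (U : Set (ℕ × ℕ)) e)) (hF.trans hX) ?_ ?_
    · rintro _ ⟨u, hu, rfl⟩ _ ⟨v, hv, rfl⟩ huv
      simp only at huv
      have e1 := hg.leftInvOn_invFunOn hu
      have e2 := hg.leftInvOn_invFunOn hv
      rw [e1, e2] at huv
      rw [hp hu hv huv]
    · rintro _ ⟨u, hu, rfl⟩
      have e1 := hg.leftInvOn_invFunOn hu
      simp only [e1]
      exact (h u hu).2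
  have h1 : rk M (g '' (U : Set (ℕ × ℕ))) = U.card := by
    rw [rk_indep hind, hg.ncard_image, Set.ncard_coe_finset]
  rw [← h1]
  exact rk_mono M hF

/-- The orientation inequality. -/
lemma orient (hB : Bic M S ends) {A : Set α} (hA : A ⊆ S) {p : ℕ × ℕ → V}
    {Ua Ub : Finset (ℕ × ℕ)} (hp : InjOn p ((Ua ∪ Ub : Finset (ℕ × ℕ)) : Set (ℕ × ℕ)))
    {a b : ℕ × ℕ → α} (ha : InjOn a Ua) (hb : InjOn b Ub)
    (hab : ∀ u ∈ Ua, ∀ v ∈ Ub, a u ≠ b v)
    (ha' : ∀ u ∈ Ua, a u ∈ S ∧ p u ∈ ends (a u)) (hb' : ∀ u ∈ Ub, b u ∈ S ∧ p u ∈ ends (b u))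
    {Z : Finset (ℕ × ℕ)} (hZa : Z ⊆ Ua) (hZb : Z ⊆ Ub)
    (hZ : ∀ u ∈ Z, ¬ (a u ∈ A ↔ b u ∈ A)) :
    (Ua ∪ Ub).card + Z.card ≤ rk M A + rk M (S \ A) := by
  classical
  -- generic construction
  have key : ∀ X : Set α, X ⊆ S → ∃ K : Finset (ℕ × ℕ), (∀ u, u ∈ K ↔ u ∈ Ua ∪ Ub ∧
      ((u ∈ Ua ∧ a u ∈ X) ∨ (u ∈ Ub ∧ b u ∈ X))) ∧ K.card ≤ rk M X := by
    intro X hX
    refine ⟨(Ua ∪ Ub).filter (fun u => (u ∈ Ua ∧ a u ∈ X) ∨
      (u ∈ Ub ∧ b u ∈ X)), fun u => Finset.mem_filter, ?_⟩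
    refine rk_ge_card hB hX (p := p) (g := fun u => if u ∈ Ua ∧ a u ∈ X then a u else b u) ?_ ?_ ?_
    · exact hp.mono (fun u hu => Finset.mem_coe.2 (Finset.mem_filter.1 (Finset.mem_coe.1 hu)).1)
    · intro u hu v hv huv
      have hu' := (Finset.mem_filter.1 (Finset.mem_coe.1 hu)).2
      have hv' := (Finset.mem_filter.1 (Finset.mem_coe.1 hv)).2
      simp only at huv
      split_ifs at huv with h1 h2 h2
      · exact ha h1.1 h2.1 huv
      · have : v ∈ Ub := by tauto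
        exact absurd huv (hab u h1.1 v this)
      · have : u ∈ Ub := by tauto
        exact absurd huv.symm (hab v h2.1 u this)
      · have h3 : v ∈ Ub := by tauto
        have h4 : u ∈ Ub := by tauto
        exact hb h4 h3 huv
    · intro u hu
      have hu' := (Finset.mem_filter.1 hu).2
      split_ifs with h1
      · exact ⟨h1.2, (ha' u h1.1).2⟩
      · have h2 : u ∈ Ub ∧ b u ∈ X := by tauto
        exact ⟨h2.2, (hb' u h2.1).2⟩
  obtain ⟨K1, hK1, k1⟩ := key A hA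
  obtain ⟨K2, hK2, k2⟩ := key (S \ A) sdiff_subset
  refine le_trans ?_ (Nat.add_le_add k1 k2)
  refine le_trans ?_ (Finset.card_union_add_card_inter _ _).le
  refine Nat.add_le_add (Finset.card_le_card ?_) (Finset.card_le_card ?_)
  · intro u hu
    rw [Finset.mem_union, hK1, hK2]
    rcases Finset.mem_union.1 hu with h | h
    · by_cases h2 : a u ∈ A
      · exact Or.inl ⟨hu, Or.inl ⟨h, h2⟩⟩
      · exact Or.inr ⟨hu, Or.inl ⟨h, (ha' u h).1, h2⟩⟩
    · by_cases h2 : b u ∈ A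
      · exact Or.inl ⟨hu, Or.inr ⟨h, h2⟩⟩
      · exact Or.inr ⟨hu, Or.inr ⟨h, (hb' u h).1, h2⟩⟩
  · intro u hu
    have hua := hZa hu
    have hub := hZb hu
    have h1 := hZ u hu
    have hU : u ∈ Ua ∪ Ub := Finset.mem_union_left _ hua
    rw [Finset.mem_inter, hK1, hK2]
    by_cases h2 : a u ∈ A
    · have h3 : b u ∉ A := fun h => h1 ⟨fun _ => h, fun _ => h2⟩
      exact ⟨⟨hU, Or.inl ⟨hua, h2⟩⟩, ⟨hU, Or.inr ⟨hub, (hb' u hub).1, h3⟩⟩⟩
    · have h3 : b u ∈ A := by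
        by_contra h
        exact h1 ⟨fun h' => absurd h' h2, fun h' => absurd h' h⟩
      exact ⟨⟨hU, Or.inr ⟨hub, h3⟩⟩, ⟨hU, Or.inl ⟨hua, (ha' u hua).1, h2⟩⟩⟩

end lower

section combi

/-- one clean line of the grid is monochromatic -/
lemma row_mono {n : ℕ} (hA vA : ℕ → ℕ → Prop) {i : ℕ} (hi : i < n) (hn : 2 ≤ n)
    (RD : ∀ j, j + 1 < n → i + 1 < n → (hA i j ↔ vA i j))
    (RU : ∀ j, j + 1 < n → 1 ≤ i → (hA i j ↔ vA (i - 1) j))
    (LD : ∀ j, j + 1 < n → i + 1 < n → (hA i j ↔ vA i (j + 1)))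
    (LU : ∀ j, j + 1 < n → 1 ≤ i → (hA i j ↔ vA (i - 1) (j + 1))) :
    ∃ c : Prop, (∀ j, j + 1 < n → (hA i j ↔ c)) ∧ (∀ j, j < n → i + 1 < n → (vA i j ↔ c)) ∧
      (∀ j, j < n → 1 ≤ i → (vA (i - 1) j ↔ c)) := by
  have hh : ∀ j, j + 1 < n → (hA i j ↔ hA i 0) := by
    intro j
    induction j with
    | zero => intro _; exact Iff.rfl
    | succ j ih =>
      intro hj
      have ih' := ih (by omega)
      rw [← ih']
      by_cases h1 : i + 1 < n
      · rw [LD j (by omega) h1, RD (j + 1) hj h1]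
      · rw [LU j (by omega) (by omega), RU (j + 1) hj (by omega)]
  refine ⟨hA i 0, hh, ?_, ?_⟩
  · intro j hj h1
    rcases Nat.lt_or_ge (j + 1) n with h2 | h2
    · rw [← RD j h2 h1]; exact hh j h2
    · obtain ⟨j', rfl⟩ : ∃ j', j = j' + 1 := ⟨j - 1, by omega⟩
      rw [← LD j' (by omega) h1]; exact hh j' (by omega)
  · intro j hj h1
    rcases Nat.lt_or_ge (j + 1) n with h2 | h2
    · rw [← RU j h2 h1]; exact hh j h2
    · obtain ⟨j', rfl⟩ : ∃ j', j = j' + 1 := ⟨j - 1, by omega⟩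
      rw [← LU j' (by omega) h1]; exact hh j' (by omega)

end combi

section iso

variable {M : Matroid α} [M.Finite] {S : Set α} {ends : α → Sym2 V} {n : ℕ} {p : ℕ → ℕ → V}
  {hE vE : ℕ → ℕ → α}

lemma IsGrid.hE_inj (hG : IsGrid S ends n p hE vE) {i j i' j' : ℕ} (h1 : i < n) (h2 : j + 1 < n)
    (h3 : i' < n) (h4 : j' + 1 < n) (h : hE i j = hE i' j') : i = i' ∧ j = j' := by
  have e1 := (hG.hmem h1 h2).2
  have e2 := (hG.hmem h3 h4).2
  rw [h, e2, Sym2.eq_iff] at e1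
  rcases e1 with ⟨a, b⟩ | ⟨a, b⟩
  · obtain ⟨c, d⟩ := hG.inj h3 (by omega) h1 (by omega) a
    exact ⟨c.symm, d.symm⟩
  · obtain ⟨c, d⟩ := hG.inj h3 (by omega) h1 (by omega) a
    obtain ⟨c', d'⟩ := hG.inj h3 (by omega) h1 (by omega) b
    omega

lemma IsGrid.vE_inj (hG : IsGrid S ends n p hE vE) {i j i' j' : ℕ} (h1 : i + 1 < n) (h2 : j < n)
    (h3 : i' + 1 < n) (h4 : j' < n) (h : vE i j = vE i' j') : i = i' ∧ j = j' := by
  have e1 := (hG.vmem h1 h2).2
  have e2 := (hG.vmem h3 h4).2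
  rw [h, e2, Sym2.eq_iff] at e1
  rcases e1 with ⟨a, b⟩ | ⟨a, b⟩
  · obtain ⟨c, d⟩ := hG.inj (by omega) h4 (by omega) h2 a
    exact ⟨c.symm, d.symm⟩
  · obtain ⟨c, d⟩ := hG.inj (by omega) h4 (by omega) h2 a
    obtain ⟨c', d'⟩ := hG.inj (by omega) h4 (by omega) h2 b
    omega

lemma IsGrid.h_ne_v (hG : IsGrid S ends n p hE vE) {i j i' j' : ℕ} (h1 : i < n) (h2 : j + 1 < n)
    (h3 : i' + 1 < n) (h4 : j' < n) : hE i j ≠ vE i' j' := by
  intro h
  have e1 := (hG.hmem h1 h2).2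
  have e2 := (hG.vmem h3 h4).2
  rw [h, e2, Sym2.eq_iff] at e1
  rcases e1 with ⟨a, b⟩ | ⟨a, b⟩
  · obtain ⟨c, d⟩ := hG.inj (by omega) h4 h1 (by omega) a
    obtain ⟨c', d'⟩ := hG.inj (by omega) h4 h1 (by omega) b
    omega
  · obtain ⟨c, d⟩ := hG.inj (by omega) h4 h1 (by omega) a
    obtain ⟨c', d'⟩ := hG.inj (by omega) h4 h1 (by omega) b
    omega

/-- the transposed grid -/
lemma IsGrid.transpose (hG : IsGrid S ends n p hE vE) :
    IsGrid S ends n (fun i j => p j i) (fun i j => vE j i) (fun i j => hE j i) where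
  inj := by
    intro i j i' j' h1 h2 h3 h4 h
    obtain ⟨a, b⟩ := hG.inj h2 h1 h4 h3 h
    exact ⟨b, a⟩
  hmem := fun h1 h2 => hG.vmem h2 h1
  vmem := fun h1 h2 => hG.hmem h2 h1
  cover := by
    intro e he
    rcases hG.cover e he with ⟨i, j, h1, h2, h3⟩ | ⟨i, j, h1, h2, h3⟩
    · exact Or.inr ⟨j, i, h2, h1, h3⟩
    · exact Or.inl ⟨j, i, h2, h1, h3⟩

lemma IsGrid.rk_le (hB : Bic M S ends) (hG : IsGrid S ends n p hE vE) : rk M S ≤ n * n := by
  classical
  set U : Finset (ℕ × ℕ) := Finset.range n ×ˢ Finset.range n with hU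
  set W : Set V := (fun u : ℕ × ℕ => p u.1 u.2) '' (U : Set (ℕ × ℕ)) with hW
  have hmW : ∀ {i j : ℕ}, i < n → j < n → p i j ∈ W := by
    intro i j hi hj
    exact ⟨(i, j), Finset.mem_coe.2 (Finset.mem_product.2 ⟨Finset.mem_range.2 hi,
      Finset.mem_range.2 hj⟩), rfl⟩
  have h1 : S ⊆ ins S ends W := by
    intro e he
    refine ⟨he, ?_⟩
    rcases hG.cover e he with ⟨i, j, h1, h2, rfl⟩ | ⟨i, j, h1, h2, rfl⟩
    · rw [(hG.hmem h1 h2).2]
      intro v hv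
      rcases Sym2.mem_iff.1 hv with rfl | rfl
      · exact hmW h1 (by omega)
      · exact hmW h1 h2
    · rw [(hG.vmem h1 h2).2]
      intro v hv
      rcases Sym2.mem_iff.1 hv with rfl | rfl
      · exact hmW (by omega) h2
      · exact hmW h1 h2
  have h2 : M.eRk S ≤ W.encard := (M.eRk_mono h1).trans (hB.rk W)
  have h3 : W.encard ≤ ((n * n : ℕ) : ℕ∞) := by
    refine (Set.encard_image_le _ _).trans ?_
    rw [Set.encard_coe_eq_coe_finsetCard, hU, Finset.card_product, Finset.card_range]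
  have h4 := h2.trans h3
  rw [← cast_rk] at h4
  exact_mod_cast h4

/-- an edge inside the box `DR × DC` -/
def InBox (n : ℕ) (hE vE : ℕ → ℕ → α) (DR DC : Finset ℕ) (e : α) : Prop :=
  (∃ i j, i < n ∧ j + 1 < n ∧ i ∈ DR ∧ j ∈ DC ∧ j + 1 ∈ DC ∧ e = hE i j) ∨
  (∃ i j, i + 1 < n ∧ j < n ∧ i ∈ DR ∧ i + 1 ∈ DR ∧ j ∈ DC ∧ e = vE i j)

/-- the four kinds of mixed corners -/
lemma IsGrid.mixed_card (hB : Bic M S ends) (hG : IsGrid S ends n p hE vE) {A : Set α}
    (hA : A ⊆ S) {t : ℕ} (ht : rk M A + rk M (S \ A) ≤ rk M S + t)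
    {Ua Ub Z : Finset (ℕ × ℕ)} {a b : ℕ × ℕ → α} {corner : ℕ × ℕ}
    (hUa : Ua ⊆ Finset.range n ×ˢ Finset.range n) (hUb : Ub ⊆ Finset.range n ×ˢ Finset.range n)
    (hcor : ∀ u ∈ Finset.range n ×ˢ Finset.range n, u ≠ corner → u ∈ Ua ∪ Ub)
    (ha : InjOn a Ua) (hb : InjOn b Ub) (hab : ∀ u ∈ Ua, ∀ v ∈ Ub, a u ≠ b v)
    (ha' : ∀ u ∈ Ua, a u ∈ S ∧ p u.1 u.2 ∈ ends (a u))
    (hb' : ∀ u ∈ Ub, b u ∈ S ∧ p u.1 u.2 ∈ ends (b u))
    (hZa : Z ⊆ Ua) (hZb : Z ⊆ Ub) (hZ : ∀ u ∈ Z, ¬ (a u ∈ A ↔ b u ∈ A)) : Z.card ≤ t + 1 := by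
  classical
  have hp : InjOn (fun u : ℕ × ℕ => p u.1 u.2) ((Ua ∪ Ub : Finset (ℕ × ℕ)) : Set (ℕ × ℕ)) := by
    intro u hu v hv huv
    have hsub : Ua ∪ Ub ⊆ Finset.range n ×ˢ Finset.range n := Finset.union_subset hUa hUb
    have hu' := Finset.mem_product.1 (hsub (Finset.mem_coe.1 hu))
    have hv' := Finset.mem_product.1 (hsub (Finset.mem_coe.1 hv))
    obtain ⟨e1, e2⟩ := hG.inj (Finset.mem_range.1 hu'.1) (Finset.mem_range.1 hu'.2)
      (Finset.mem_range.1 hv'.1) (Finset.mem_range.1 hv'.2) huv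
    exact Prod.ext e1 e2
  have h1 := orient hB hA hp ha hb hab ha' hb' hZa hZb hZ
  have h2 := IsGrid.rk_le hB hG
  have h3 : n * n ≤ (Ua ∪ Ub).card + 1 := by
    have h4 : (Finset.range n ×ˢ Finset.range n) ⊆ insert corner (Ua ∪ Ub) := by
      intro u hu
      by_cases h : u = corner
      · rw [h]; exact Finset.mem_insert_self _ _
      · exact Finset.mem_insert_of_mem (hcor u hu h)
    have h5 := Finset.card_le_card h4
    rw [Finset.card_product, Finset.card_range] at h5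
    exact h5.trans (Finset.card_insert_le _ _)
  omega

end iso

section main

variable {M : Matroid α} [M.Finite] {S : Set α} {ends : α → Sym2 V} {n : ℕ} {p : ℕ → ℕ → V}
  {hE vE : ℕ → ℕ → α}

/-- **Grid isoperimetry, rank form.** -/
theorem grid_iso (hB : Bic M S ends) (hG : IsGrid S ends n p hE vE) {A : Set α}
    (hA : A ⊆ S) {t : ℕ} (ht : rk M A + rk M (S \ A) ≤ rk M S + t) (hn : 4 * (t + 1) < n) :
    ∃ DR DC : Finset ℕ, DR.card ≤ 4 * (t + 1) ∧ DC.card ≤ 4 * (t + 1) ∧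
      ((∀ e ∈ A, InBox n hE vE DR DC e) ∨ (∀ e ∈ S \ A, InBox n hE vE DR DC e)) := by
  classical
  set U : Finset (ℕ × ℕ) := Finset.range n ×ˢ Finset.range n with hU
  have hUm : ∀ u : ℕ × ℕ, u ∈ U ↔ u.1 < n ∧ u.2 < n := by
    intro u
    rw [hU, Finset.mem_product, Finset.mem_range, Finset.mem_range]
  -- the four choices
  set UR := U.filter (fun u => u.2 + 1 < n) with hUR
  set UL := U.filter (fun u => 1 ≤ u.2) with hUL
  set UD := U.filter (fun u => u.1 + 1 < n) with hUD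
  set UU := U.filter (fun u => 1 ≤ u.1) with hUU
  have mR : ∀ u, u ∈ UR ↔ (u.1 < n ∧ u.2 < n) ∧ u.2 + 1 < n := by
    intro u; rw [hUR, Finset.mem_filter, hUm]
  have mL : ∀ u, u ∈ UL ↔ (u.1 < n ∧ u.2 < n) ∧ 1 ≤ u.2 := by
    intro u; rw [hUL, Finset.mem_filter, hUm]
  have mD : ∀ u, u ∈ UD ↔ (u.1 < n ∧ u.2 < n) ∧ u.1 + 1 < n := by
    intro u; rw [hUD, Finset.mem_filter, hUm]
  have mU : ∀ u, u ∈ UU ↔ (u.1 < n ∧ u.2 < n) ∧ 1 ≤ u.1 := by
    intro u; rw [hUU, Finset.mem_filter, hUm]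
  set eR : ℕ × ℕ → α := fun u => hE u.1 u.2 with heR
  set eL : ℕ × ℕ → α := fun u => hE u.1 (u.2 - 1) with heL
  set eD : ℕ × ℕ → α := fun u => vE u.1 u.2 with heD
  set eU : ℕ × ℕ → α := fun u => vE (u.1 - 1) u.2 with heU
  have iR : InjOn eR UR := by
    intro u hu v hv h
    have hu' := (mR u).1 hu
    have hv' := (mR v).1 hv
    obtain ⟨e1, e2⟩ := hG.hE_inj hu'.1.1 hu'.2 hv'.1.1 hv'.2 h
    exact Prod.ext e1 e2
  have iL : InjOn eL UL := by
    intro u hu v hv h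
    have hu' := (mL u).1 hu
    have hv' := (mL v).1 hv
    obtain ⟨e1, e2⟩ := hG.hE_inj hu'.1.1 (by omega) hv'.1.1 (by omega) h
    exact Prod.ext e1 (by omega)
  have iD : InjOn eD UD := by
    intro u hu v hv h
    have hu' := (mD u).1 hu
    have hv' := (mD v).1 hv
    obtain ⟨e1, e2⟩ := hG.vE_inj hu'.2 hu'.1.2 hv'.2 hv'.1.2 h
    exact Prod.ext e1 e2
  have iU : InjOn eU UU := by
    intro u hu v hv h
    have hu' := (mU u).1 hu
    have hv' := (mU v).1 hv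
    obtain ⟨e1, e2⟩ := hG.vE_inj (by omega) hu'.1.2 (by omega) hv'.1.2 h
    exact Prod.ext (by omega) e2
  have pR : ∀ u ∈ UR, eR u ∈ S ∧ p u.1 u.2 ∈ ends (eR u) := by
    intro u hu
    have hu' := (mR u).1 hu
    obtain ⟨e1, e2⟩ := hG.hmem hu'.1.1 hu'.2
    exact ⟨e1, by rw [heR]; simp only; rw [e2]; exact Sym2.mem_mk_left _ _⟩
  have pL : ∀ u ∈ UL, eL u ∈ S ∧ p u.1 u.2 ∈ ends (eL u) := by
    intro u hu
    have hu' := (mL u).1 hu
    obtain ⟨e1, e2⟩ := hG.hmem (j := u.2 - 1) hu'.1.1 (by omega)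
    have e3 : u.2 - 1 + 1 = u.2 := by omega
    rw [e3] at e2
    exact ⟨e1, by rw [heL]; simp only; rw [e2]; exact Sym2.mem_mk_right _ _⟩
  have pD : ∀ u ∈ UD, eD u ∈ S ∧ p u.1 u.2 ∈ ends (eD u) := by
    intro u hu
    have hu' := (mD u).1 hu
    obtain ⟨e1, e2⟩ := hG.vmem hu'.2 hu'.1.2
    exact ⟨e1, by rw [heD]; simp only; rw [e2]; exact Sym2.mem_mk_left _ _⟩
  have pU : ∀ u ∈ UU, eU u ∈ S ∧ p u.1 u.2 ∈ ends (eU u) := by
    intro u hu
    have hu' := (mU u).1 hu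
    obtain ⟨e1, e2⟩ := hG.vmem (i := u.1 - 1) (j := u.2) (by omega) hu'.1.2
    have e3 : u.1 - 1 + 1 = u.1 := by omega
    rw [e3] at e2
    exact ⟨e1, by rw [heU]; simp only; rw [e2]; exact Sym2.mem_mk_right _ _⟩
  have sR : UR ⊆ U := Finset.filter_subset _ _
  have sL : UL ⊆ U := Finset.filter_subset _ _
  have sD : UD ⊆ U := Finset.filter_subset _ _
  have sU : UU ⊆ U := Finset.filter_subset _ _
  -- mixed vertices
  set ZRD := (UR ∩ UD).filter (fun u => ¬ (eR u ∈ A ↔ eD u ∈ A)) with hZRD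
  set ZRU := (UR ∩ UU).filter (fun u => ¬ (eR u ∈ A ↔ eU u ∈ A)) with hZRU
  set ZLD := (UL ∩ UD).filter (fun u => ¬ (eL u ∈ A ↔ eD u ∈ A)) with hZLD
  set ZLU := (UL ∩ UU).filter (fun u => ¬ (eL u ∈ A ↔ eU u ∈ A)) with hZLU
  have c1 : ZRD.card ≤ t + 1 := by
    refine IsGrid.mixed_card hB hG hA ht (corner := (n - 1, n - 1)) sR sD ?_ iR iD ?_ pR pD
      ((Finset.filter_subset _ _).trans Finset.inter_subset_left)
      ((Finset.filter_subset _ _).trans Finset.inter_subset_right)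
      (fun u hu => (Finset.mem_filter.1 hu).2)
    · intro u hu hne
      have hu' := (hUm u).1 hu
      rw [Finset.mem_union, mR, mD]
      by_contra hcon
      apply hne
      exact Prod.ext (by simp only; omega) (by simp only; omega)
    · intro u hu v hv
      have hu' := (mR u).1 hu
      have hv' := (mD v).1 hv
      exact hG.h_ne_v hu'.1.1 hu'.2 hv'.2 hv'.1.2
  have c2 : ZRU.card ≤ t + 1 := by
    refine IsGrid.mixed_card hB hG hA ht (corner := (0, n - 1)) sR sU ?_ iR iU ?_ pR pU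
      ((Finset.filter_subset _ _).trans Finset.inter_subset_left)
      ((Finset.filter_subset _ _).trans Finset.inter_subset_right)
      (fun u hu => (Finset.mem_filter.1 hu).2)
    · intro u hu hne
      have hu' := (hUm u).1 hu
      rw [Finset.mem_union, mR, mU]
      by_contra hcon
      apply hne
      exact Prod.ext (by simp only; omega) (by simp only; omega)
    · intro u hu v hv
      have hu' := (mR u).1 hu
      have hv' := (mU v).1 hv
      exact hG.h_ne_v hu'.1.1 hu'.2 (by omega) hv'.1.2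
  have c3 : ZLD.card ≤ t + 1 := by
    refine IsGrid.mixed_card hB hG hA ht (corner := (n - 1, 0)) sL sD ?_ iL iD ?_ pL pD
      ((Finset.filter_subset _ _).trans Finset.inter_subset_left)
      ((Finset.filter_subset _ _).trans Finset.inter_subset_right)
      (fun u hu => (Finset.mem_filter.1 hu).2)
    · intro u hu hne
      have hu' := (hUm u).1 hu
      rw [Finset.mem_union, mL, mD]
      by_contra hcon
      apply hne
      exact Prod.ext (by simp only; omega) (by simp only; omega)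
    · intro u hu v hv
      have hu' := (mL u).1 hu
      have hv' := (mD v).1 hv
      exact hG.h_ne_v hu'.1.1 (by omega) hv'.2 hv'.1.2
  have c4 : ZLU.card ≤ t + 1 := by
    refine IsGrid.mixed_card hB hG hA ht (corner := (0, 0)) sL sU ?_ iL iU ?_ pL pU
      ((Finset.filter_subset _ _).trans Finset.inter_subset_left)
      ((Finset.filter_subset _ _).trans Finset.inter_subset_right)
      (fun u hu => (Finset.mem_filter.1 hu).2)
    · intro u hu hne
      have hu' := (hUm u).1 hu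
      rw [Finset.mem_union, mL, mU]
      by_contra hcon
      apply hne
      exact Prod.ext (by simp only; omega) (by simp only; omega)
    · intro u hu v hv
      have hu' := (mL u).1 hu
      have hv' := (mU v).1 hv
      exact hG.h_ne_v hu'.1.1 (by omega) (by omega) hv'.1.2
  set Z := (ZRD ∪ ZRU) ∪ (ZLD ∪ ZLU) with hZ
  have cZ : Z.card ≤ 4 * (t + 1) := by
    have h1 := Finset.card_union_le (ZRD ∪ ZRU) (ZLD ∪ ZLU)
    have h2 := Finset.card_union_le ZRD ZRU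
    have h3 := Finset.card_union_le ZLD ZLU
    rw [hZ]
    omega
  refine ⟨Z.image Prod.fst, Z.image Prod.snd, Finset.card_image_le.trans cZ,
    Finset.card_image_le.trans cZ, ?_⟩
  set DR := Z.image Prod.fst with hDR
  set DC := Z.image Prod.snd with hDC
  -- relations at clean vertices
  have rRD : ∀ i j, (i, j) ∉ Z → i + 1 < n → j + 1 < n → (hE i j ∈ A ↔ vE i j ∈ A) := by
    intro i j h h1 h2
    by_contra hcon
    apply h
    rw [hZ, Finset.mem_union, Finset.mem_union, hZRD, Finset.mem_filter]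
    exact Or.inl (Or.inl ⟨Finset.mem_inter.2 ⟨(mR _).2 ⟨⟨by simp only; omega, by simp only; omega⟩, h2⟩,
      (mD _).2 ⟨⟨by simp only; omega, by simp only; omega⟩, h1⟩⟩, hcon⟩)
  have rRU : ∀ i j, (i + 1, j) ∉ Z → i + 1 < n → j + 1 < n → (hE (i + 1) j ∈ A ↔ vE i j ∈ A) := by
    intro i j h h1 h2
    by_contra hcon
    apply h
    rw [hZ, Finset.mem_union, Finset.mem_union, hZRU, Finset.mem_filter (s := UR ∩ UU)]
    exact Or.inl (Or.inr ⟨Finset.mem_inter.2 ⟨(mR _).2 ⟨⟨by simp only; omega, by simp only; omega⟩, h2⟩,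
      (mU _).2 ⟨⟨by simp only; omega, by simp only; omega⟩, by simp only; omega⟩⟩, hcon⟩)
  have rLD : ∀ i j, (i, j + 1) ∉ Z → i + 1 < n → j + 1 < n → (hE i j ∈ A ↔ vE i (j + 1) ∈ A) := by
    intro i j h h1 h2
    by_contra hcon
    apply h
    rw [hZ, Finset.mem_union]
    refine Or.inr (Finset.mem_union.2 (Or.inl ?_))
    rw [hZLD, Finset.mem_filter]
    exact ⟨Finset.mem_inter.2 ⟨(mL _).2 ⟨⟨by simp only; omega, by simp only; omega⟩, by simp only; omega⟩,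
      (mD _).2 ⟨⟨by simp only; omega, by simp only; omega⟩, h1⟩⟩, hcon⟩
  have rLU : ∀ i j, (i + 1, j + 1) ∉ Z → i + 1 < n → j + 1 < n →
      (hE (i + 1) j ∈ A ↔ vE i (j + 1) ∈ A) := by
    intro i j h h1 h2
    by_contra hcon
    apply h
    rw [hZ, Finset.mem_union]
    refine Or.inr (Finset.mem_union.2 (Or.inr ?_))
    rw [hZLU, Finset.mem_filter]
    exact ⟨Finset.mem_inter.2 ⟨(mL _).2 ⟨⟨by simp only; omega, by simp only; omega⟩, by simp only; omega⟩,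
      (mU _).2 ⟨⟨by simp only; omega, by simp only; omega⟩, by simp only; omega⟩⟩, hcon⟩
  have nR : ∀ {i j : ℕ}, i ∉ DR → (i, j) ∉ Z := fun hi h =>
    hi (Finset.mem_image.2 ⟨_, h, rfl⟩)
  have nC : ∀ {i j : ℕ}, j ∉ DC → (i, j) ∉ Z := fun hj h =>
    hj (Finset.mem_image.2 ⟨_, h, rfl⟩)
  have hn2 : 2 ≤ n := by omega
  -- clean rows and columns are monochromatic
  have rowM : ∀ i, i < n → i ∉ DR → ∃ c : Prop, (∀ j, j + 1 < n → (hE i j ∈ A ↔ c)) ∧
      (∀ j, j < n → i + 1 < n → (vE i j ∈ A ↔ c)) ∧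
      (∀ j, j < n → 1 ≤ i → (vE (i - 1) j ∈ A ↔ c)) := by
    intro i hi hiD
    refine row_mono (fun i j => hE i j ∈ A) (fun i j => vE i j ∈ A) hi hn2 ?_ ?_ ?_ ?_
    · exact fun j h1 h2 => rRD i j (nR hiD) h2 h1
    · intro j h1 h2
      obtain ⟨i', rfl⟩ : ∃ i', i = i' + 1 := ⟨i - 1, by omega⟩
      exact rRU i' j (nR hiD) hi h1
    · exact fun j h1 h2 => rLD i j (nR hiD) h2 h1
    · intro j h1 h2
      obtain ⟨i', rfl⟩ : ∃ i', i = i' + 1 := ⟨i - 1, by omega⟩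
      exact rLU i' j (nR hiD) hi h1
  have colM : ∀ j, j < n → j ∉ DC → ∃ c : Prop, (∀ i, i + 1 < n → (vE i j ∈ A ↔ c)) ∧
      (∀ i, i < n → j + 1 < n → (hE i j ∈ A ↔ c)) ∧
      (∀ i, i < n → 1 ≤ j → (hE i (j - 1) ∈ A ↔ c)) := by
    intro j hj hjD
    refine row_mono (fun j i => vE i j ∈ A) (fun j i => hE i j ∈ A) hj hn2 ?_ ?_ ?_ ?_
    · exact fun i h1 h2 => (rRD i j (nC hjD) h1 h2).symm
    · intro i h1 h2
      obtain ⟨j', rfl⟩ : ∃ j', j = j' + 1 := ⟨j - 1, by omega⟩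
      exact (rLD i j' (nC hjD) h1 hj).symm
    · exact fun i h1 h2 => (rRU i j (nC hjD) h1 h2).symm
    · intro i h1 h2
      obtain ⟨j', rfl⟩ : ∃ j', j = j' + 1 := ⟨j - 1, by omega⟩
      exact (rLU i j' (nC hjD) h1 hj).symm
  -- a clean row and a clean column exist
  have exR : ∃ i, i < n ∧ i ∉ DR := by
    by_contra hcon
    push Not at hcon
    have h1 : Finset.range n ⊆ DR := fun i hi => hcon i (Finset.mem_range.1 hi)
    have h2 := Finset.card_le_card h1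
    rw [Finset.card_range] at h2
    have h3 : DR.card ≤ 4 * (t + 1) := Finset.card_image_le.trans cZ
    omega
  have exC : ∃ j, j < n ∧ j ∉ DC := by
    by_contra hcon
    push Not at hcon
    have h1 : Finset.range n ⊆ DC := fun i hi => hcon i (Finset.mem_range.1 hi)
    have h2 := Finset.card_le_card h1
    rw [Finset.card_range] at h2
    have h3 : DC.card ≤ 4 * (t + 1) := Finset.card_image_le.trans cZ
    omega
  -- crossing lines have the same colour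
  have cross : ∀ {i j : ℕ} {c d : Prop}, i < n → j < n →
      ((∀ j, j + 1 < n → (hE i j ∈ A ↔ c)) ∧ (∀ j, j < n → i + 1 < n → (vE i j ∈ A ↔ c)) ∧
        (∀ j, j < n → 1 ≤ i → (vE (i - 1) j ∈ A ↔ c))) →
      ((∀ i, i + 1 < n → (vE i j ∈ A ↔ d)) ∧ (∀ i, i < n → j + 1 < n → (hE i j ∈ A ↔ d)) ∧
        (∀ i, i < n → 1 ≤ j → (hE i (j - 1) ∈ A ↔ d))) → (c ↔ d) := by
    intro i j c d hi hj hc hd
    rcases Nat.lt_or_ge (j + 1) n with h | h
    · rw [← hc.1 j h, ← hd.2.1 i hi h]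
    · have h2 : j - 1 + 1 < n := by omega
      rw [← hc.1 (j - 1) h2, ← hd.2.2 i hi (by omega)]
  obtain ⟨i₀, hi₀, hi₀D⟩ := exR
  obtain ⟨j₀, hj₀, hj₀D⟩ := exC
  obtain ⟨c, hc⟩ := rowM i₀ hi₀ hi₀D
  have rowC : ∀ i, i < n → i ∉ DR → (∀ j, j + 1 < n → (hE i j ∈ A ↔ c)) ∧
      (∀ j, j < n → i + 1 < n → (vE i j ∈ A ↔ c)) ∧
      (∀ j, j < n → 1 ≤ i → (vE (i - 1) j ∈ A ↔ c)) := by
    intro i hi hiD
    obtain ⟨d, hd⟩ := rowM i hi hiD
    obtain ⟨c', hc'⟩ := colM j₀ hj₀ hj₀D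
    have e1 := cross hi₀ hj₀ hc hc'
    have e2 := cross hi hj₀ hd hc'
    have e3 : d ↔ c := e2.trans e1.symm
    exact ⟨fun j h => (hd.1 j h).trans e3, fun j h1 h2 => (hd.2.1 j h1 h2).trans e3,
      fun j h1 h2 => (hd.2.2 j h1 h2).trans e3⟩
  have colC : ∀ j, j < n → j ∉ DC → (∀ i, i + 1 < n → (vE i j ∈ A ↔ c)) ∧
      (∀ i, i < n → j + 1 < n → (hE i j ∈ A ↔ c)) ∧
      (∀ i, i < n → 1 ≤ j → (hE i (j - 1) ∈ A ↔ c)) := by
    intro j hj hjD
    obtain ⟨d, hd⟩ := colM j hj hjD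
    have e3 : d ↔ c := (cross hi₀ hj hc hd).symm
    exact ⟨fun i h => (hd.1 i h).trans e3, fun i h1 h2 => (hd.2.1 i h1 h2).trans e3,
      fun i h1 h2 => (hd.2.2 i h1 h2).trans e3⟩
  -- every edge of the wrong colour lies in the box
  have box : ∀ e ∈ S, ¬ (e ∈ A ↔ c) → InBox n hE vE DR DC e := by
    intro e he hne
    rcases hG.cover e he with ⟨i, j, h1, h2, rfl⟩ | ⟨i, j, h1, h2, rfl⟩
    · refine Or.inl ⟨i, j, h1, h2, ?_, ?_, ?_, rfl⟩
      · by_contra h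
        exact hne ((rowC i h1 h).1 j h2)
      · by_contra h
        exact hne ((colC j (by omega) h).2.1 i h1 h2)
      · by_contra h
        have := (colC (j + 1) h2 h).2.2 i h1 (by omega)
        rw [Nat.add_sub_cancel] at this
        exact hne this
    · refine Or.inr ⟨i, j, h1, h2, ?_, ?_, ?_, rfl⟩
      · by_contra h
        exact hne ((rowC i (by omega) h).2.1 j h2 h1)
      · by_contra h
        have := (rowC (i + 1) h1 h).2.2 j h2 (by omega)
        rw [Nat.add_sub_cancel] at this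
        exact hne this
      · by_contra h
        exact hne ((colC j h2 h).1 i h1)
  by_cases hcc : c
  · right
    intro e he
    exact box e he.1 (fun h => he.2 (h.2 hcc))
  · left
    intro e he
    exact box e (hA he) (fun h => hcc (h.1 he))

end main

section cor

variable {M : Matroid α} [M.Finite] {S : Set α} {ends : α → Sym2 V} {n : ℕ} {p : ℕ → ℕ → V}
  {hE vE : ℕ → ℕ → α}

/-- The edges of the `s × s` block with corner `(r, c)`. -/
def GBlk (hE vE : ℕ → ℕ → α) (r c s : ℕ) : Set α :=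
  {e | (∃ i j, r ≤ i ∧ i < r + s ∧ c ≤ j ∧ j + 1 < c + s ∧ e = hE i j) ∨
    (∃ i j, r ≤ i ∧ i + 1 < r + s ∧ c ≤ j ∧ j < c + s ∧ e = vE i j)}

lemma inBox_finite (DR DC : Finset ℕ) : {e | InBox n hE vE DR DC e}.Finite ∧
    {e | InBox n hE vE DR DC e}.ncard ≤ 2 * (DR.card * DC.card) := by
  classical
  have h1 : {e | InBox n hE vE DR DC e} ⊆
      (((DR ×ˢ DC).image (fun u => hE u.1 u.2) ∪ (DR ×ˢ DC).image (fun u => vE u.1 u.2) :
        Finset α) : Set α) := by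
    rintro e (⟨i, j, _, _, hi, hj, _, rfl⟩ | ⟨i, j, _, _, hi, _, hj, rfl⟩)
    · exact Finset.mem_coe.2 (Finset.mem_union_left _ (Finset.mem_image.2
        ⟨(i, j), Finset.mem_product.2 ⟨hi, hj⟩, rfl⟩))
    · exact Finset.mem_coe.2 (Finset.mem_union_right _ (Finset.mem_image.2
        ⟨(i, j), Finset.mem_product.2 ⟨hi, hj⟩, rfl⟩))
  refine ⟨(Finset.finite_toSet _).subset h1, ?_⟩
  refine (Set.ncard_le_ncard h1 (Finset.finite_toSet _)).trans ?_
  rw [Set.ncard_coe_finset]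
  refine (Finset.card_union_le _ _).trans ?_
  have h2 := Finset.card_image_le (s := DR ×ˢ DC) (f := fun u => hE u.1 u.2)
  have h3 := Finset.card_image_le (s := DR ×ˢ DC) (f := fun u => vE u.1 u.2)
  rw [Finset.card_product] at h2 h3
  omega

/-- **Grid isoperimetry with a block.**  A separation of order `≤ t` one side of which contains an
`s × s` block, `s > 4 (t + 1)`, has at most `32 (t + 1)²` elements on the other side, all of them in
a box of `4 (t + 1)` rows and columns. -/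
theorem grid_iso_block (hB : Bic M S ends) (hG : IsGrid S ends n p hE vE) {A : Set α}
    (hA : A ⊆ S) {t : ℕ} (ht : rk M A + rk M (S \ A) ≤ rk M S + t) {r c s : ℕ}
    (hr : r + s ≤ n) (hc : c + s ≤ n) (hs : 4 * (t + 1) < s) (hblk : GBlk hE vE r c s ⊆ A) :
    ∃ DR DC : Finset ℕ, DR.card ≤ 4 * (t + 1) ∧ DC.card ≤ 4 * (t + 1) ∧
      (∀ e ∈ S \ A, InBox n hE vE DR DC e) ∧ (S \ A).ncard ≤ 32 * (t + 1) ^ 2 := by
  classical
  obtain ⟨DR, DC, h1, h2, h3⟩ := grid_iso hB hG hA ht (by omega)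
  have h4 : ∀ e ∈ S \ A, InBox n hE vE DR DC e := by
    rcases h3 with h3 | h3
    · exfalso
      have h5 : Finset.Ico r (r + s) ⊆ DR := by
        intro i hi
        have hi' := Finset.mem_Ico.1 hi
        have h6 : hE i c ∈ A := hblk (Or.inl ⟨i, c, hi'.1, hi'.2, le_refl _, by omega, rfl⟩)
        rcases h3 _ h6 with ⟨i', j', g1, g2, g3, _, _, g4⟩ | ⟨i', j', g1, g2, _, _, _, g4⟩
        · obtain ⟨e1, _⟩ := hG.hE_inj (by omega) (by omega) g1 g2 g4
          rw [e1]; exact g3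
        · exact absurd g4 (hG.h_ne_v (by omega) (by omega) g1 g2)
      have h6 := Finset.card_le_card h5
      rw [Nat.card_Ico] at h6
      omega
    · exact h3
  refine ⟨DR, DC, h1, h2, h4, ?_⟩
  obtain ⟨f1, f2⟩ := inBox_finite (n := n) (hE := hE) (vE := vE) DR DC
  refine (Set.ncard_le_ncard h4 f1).trans (f2.trans ?_)
  have h5 := Nat.mul_le_mul h1 h2
  have h6 : 4 * (t + 1) * (4 * (t + 1)) = 16 * (t + 1) ^ 2 := by ring
  rw [h6] at h5
  omega

end cor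

end BIC
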